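import Pool.Agent.Helper29.PA.Parts
import Pool.Agent.Helper29.F5.Gen

/-!
# One symplectic block
-/

namespace Pool.Agent.Helper29.PA

open LinearMap Pool.Agent.Helper66.OTR Pool.Agent.Helper29.MX Pool.Agent.Helper29.F5 Module.End

set_option linter.unusedSectionVars false

variable {K V : Type*} [Field K] [AddCommGroup V] [Module K V] [FiniteDimensional K V]
variable {ψ : LinearMap.BilinForm K V} {g : Submodule K (Module.End K V)}

/-- generated by the idempotents other than `0` and `1` -/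
def GenI (g : Submodule K (Module.End K V)) : Prop :=
  ∀ g' : Submodule K (Module.End K V), (∀ X ∈ g', ∀ Y ∈ g', X * Y - Y * X ∈ g') →
    (∀ e ∈ g, e * e = e → e ≠ 0 → e ≠ 1 → e ∈ g') → g ≤ g'

lemma res_gen (hgen : GenI g) {W : Submodule K V} (hW : Stab g W)
    (s : Submodule K (Module.End K W)) (hs : ∀ X ∈ s, ∀ Y ∈ s, X * Y - Y * X ∈ s)
    (he : ∀ e ∈ res g W, e * e = e → e ∈ s) : res g W ≤ s := by
  obtain ⟨g', hg'⟩ : ∃ g' : Submodule K (Module.End K V), ∀ X, X ∈ g' ↔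
      ∃ Y ∈ s, ∀ x : W, (Y x : V) = X x := by
    refine ⟨{
      carrier := {X | ∃ Y ∈ s, ∀ x : W, (Y x : V) = X x}
      zero_mem' := ⟨0, s.zero_mem, fun x => rfl⟩
      add_mem' := ?_
      smul_mem' := ?_ }, fun X => Iff.rfl⟩
    · rintro a b ⟨Y, hY, h⟩ ⟨Z, hZ, h'⟩
      exact ⟨Y + Z, s.add_mem hY hZ, fun x => by simp [h, h']⟩
    · rintro t a ⟨Y, hY, h⟩
      exact ⟨t • Y, s.smul_mem t hY, fun x => by simp [h]⟩
  have hle : g ≤ g' := by
    refine hgen g' ?_ ?_
    · intro X hX Y hY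
      rw [hg'] at hX hY ⊢
      obtain ⟨X', hX', h⟩ := hX
      obtain ⟨Y', hY', h'⟩ := hY
      exact ⟨_, hs _ hX' _ hY', fun x => by simp [h, h']⟩
    · intro e hE hee _ _
      rw [hg']
      refine ⟨e.restrict (hW e hE), he _ ⟨e, hE, fun _ => rfl⟩ ?_, fun _ => rfl⟩
      ext x
      show e (e x) = e x
      rw [← Module.End.mul_apply, hee]
  rintro Y ⟨X, hX, hY⟩
  obtain ⟨Y', hY', h⟩ := (hg' X).1 (hle hX)
  have : Y = Y' := by
    ext x
    rw [hY, h]
  rw [this]
  exact hY'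

/-- the multiplier of an idempotent -/
lemma idem_mult [CharZero K] (d : Bas ψ g) {e : Module.End K V} (he : e ∈ g) (hee : e * e = e)
    (h0 : e ≠ 0) (h1 : e ≠ 1) : ∀ x y, ψ (e x) y + ψ x (e y) = ψ x y := by
  obtain ⟨l, hl⟩ := d.gsp e he
  have hex : ∀ x, e (e x) = e x := fun x => by rw [← Module.End.mul_apply, hee]
  have hl1 : l = 1 := by
    by_contra hne
    have h2 : ∀ x y, ψ (e x) y = ψ x (e y) := by
      intro x y
      have e1 := hl (e x) y
      have e2 := hl x (e y)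
      rw [hex] at e1 e2
      have e3 : (l - 1) * (ψ (e x) y - ψ x (e y)) = 0 := by linear_combination e2 - e1
      exact sub_eq_zero.1 ((mul_eq_zero.1 e3).resolve_left (sub_ne_zero.2 hne))
    have h3 : ∀ x, e x = (l / 2) • x := by
      intro x
      rw [← sub_eq_zero]
      apply nd_eq d
      intro y
      have e1 := hl x y
      rw [← h2] at e1
      rw [map_sub, map_smul, LinearMap.sub_apply, LinearMap.smul_apply, smul_eq_mul]
      linear_combination (1 / 2 : K) * e1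
    by_cases hx : ∀ x : V, x = 0
    · apply h0
      ext x
      rw [hx (e x), LinearMap.zero_apply]
    push Not at hx
    obtain ⟨x, hx⟩ := hx
    have h4 := hex x
    rw [h3, h3, smul_smul, ← sub_eq_zero, ← sub_smul] at h4
    rcases smul_eq_zero.1 h4 with h5 | h5
    · have h6 : (l / 2) * (l / 2 - 1) = 0 := by linear_combination h5
      rcases mul_eq_zero.1 h6 with h7 | h7
      · apply h0
        ext y
        rw [h3, h7, zero_smul, LinearMap.zero_apply]
      · apply h1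
        ext y
        rw [h3, sub_eq_zero.1 h7, one_smul, Module.End.one_apply]
    · exact hx h5
  intro x y
  rw [hl, hl1, one_mul]

/-- **Splitting off a symplectic block.** -/
theorem split [CharZero K] [IsAlgClosed K] (d : Bas ψ g) (hgen : GenI g) {W : Submodule K V}
    (hW : Stab g W) (hirr : IrrW g W) (hWW : ∀ x ∈ W, x ∈ ψ.orthogonal W → x = 0)
    (hall : ∀ Z : Module.End K W, (∀ x y : W, ψ (Z x) y + ψ x (Z y) = 0) → Z ∈ res g W)
    {M : Submodule K V} (hM : Stab g M)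
    (hhom : ∀ f : W →ₗ[K] M, (∀ Z ∈ g, ∀ v w : W, Z v = w → Z (f v) = f w) → f = 0)
    {X : Module.End K V} (hX : Skew ψ X) (hXW : ∀ x ∈ W, X x ∈ W) :
    ∃ Z ∈ g, (∀ x ∈ W, Z x = X x) ∧ ∀ x ∈ M, Z x = 0 := by
  have hnd : (ψ.restrict W).Nondegenerate := by
    refine LinearMap.BilinForm.nondegenerate_restrict_of_disjoint_orthogonal ψ (isRefl d) ?_
    rw [Submodule.disjoint_def]
    exact hWW
  obtain ⟨G, hG⟩ : ∃ G : Submodule K (Module.End K W × Module.End K M), ∀ Z, Z ∈ G ↔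
      ∃ X ∈ g, (∀ x : W, (Z.1 x : V) = X x) ∧ ∀ x : M, (Z.2 x : V) = X x := by
    refine ⟨{
      carrier := {Z | ∃ X ∈ g, (∀ x : W, (Z.1 x : V) = X x) ∧ ∀ x : M, (Z.2 x : V) = X x}
      zero_mem' := ⟨0, g.zero_mem, fun x => rfl, fun x => rfl⟩
      add_mem' := ?_
      smul_mem' := ?_ }, fun X => Iff.rfl⟩
    · rintro a b ⟨Y, hY, h, h'⟩ ⟨Z, hZ, k, k'⟩
      exact ⟨Y + Z, g.add_mem hY hZ, fun x => by simp [h, k], fun x => by simp [h', k']⟩
    · rintro t a ⟨Y, hY, h, h'⟩
      exact ⟨t • Y, g.smul_mem t hY, fun x => by simp [h], fun x => by simp [h']⟩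
  have hfin := spl (ψ.restrict W) hnd (fun x => d.alt x) G ?_ ?_ ?_ ?_ ?_ ?_ (X.restrict hXW) ?_
  · obtain ⟨Z, hZ, h1, h2⟩ := (hG _).1 hfin
    exact ⟨Z, hZ, fun x hx => (h1 ⟨x, hx⟩).symm, fun x hx => (h2 ⟨x, hx⟩).symm⟩
  · intro X hX Y hY
    rw [hG] at hX hY ⊢
    obtain ⟨X', hX', h1, h2⟩ := hX
    obtain ⟨Y', hY', h3, h4⟩ := hY
    exact ⟨_, d.closed _ hX' _ hY', fun x => by simp [h1, h3], fun x => by simp [h2, h4]⟩
  · intro Z hZ
    obtain ⟨Z', hZ', h1, -⟩ := (hG _).1 hZ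
    obtain ⟨c, hc⟩ := d.gsp Z' hZ'
    refine ⟨c, fun x y => ?_⟩
    have := hc x y
    rw [← h1, ← h1] at this
    exact this
  · intro Z hZ
    obtain ⟨Z', hZ', h1⟩ := hall Z hZ
    refine ⟨(Z, Z'.restrict (hM Z' hZ')), (hG _).2 ⟨Z', hZ', h1, fun _ => rfl⟩, rfl⟩
  · intro G' hG' hE
    obtain ⟨g', hg'⟩ : ∃ g' : Submodule K (Module.End K V), ∀ X, X ∈ g' ↔
        ∃ Z ∈ G', (∀ x : W, (Z.1 x : V) = X x) ∧ ∀ x : M, (Z.2 x : V) = X x := by
      refine ⟨{
        carrier := {X | ∃ Z ∈ G', (∀ x : W, (Z.1 x : V) = X x) ∧ ∀ x : M, (Z.2 x : V) = X x}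
        zero_mem' := ⟨0, G'.zero_mem, fun x => rfl, fun x => rfl⟩
        add_mem' := ?_
        smul_mem' := ?_ }, fun X => Iff.rfl⟩
      · rintro a b ⟨Y, hY, h, h'⟩ ⟨Z, hZ, k, k'⟩
        exact ⟨Y + Z, G'.add_mem hY hZ, fun x => by simp [h, k], fun x => by simp [h', k']⟩
      · rintro t a ⟨Y, hY, h, h'⟩
        exact ⟨t • Y, G'.smul_mem t hY, fun x => by simp [h], fun x => by simp [h']⟩
    have hle : g ≤ g' := by
      refine hgen g' ?_ ?_
      · intro X hX Y hY
        rw [hg'] at hX hY ⊢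
        obtain ⟨X', hX', h1, h2⟩ := hX
        obtain ⟨Y', hY', h3, h4⟩ := hY
        exact ⟨_, hG' _ hX' _ hY', fun x => by simp [h1, h3], fun x => by simp [h2, h4]⟩
      · intro e he hee h0 h1
        have hm := idem_mult d he hee h0 h1
        rw [hg']
        refine ⟨(e.restrict (hW e he), e.restrict (hM e he)), hE _ ((hG _).2
          ⟨e, he, fun _ => rfl, fun _ => rfl⟩) ?_ ?_ ?_, fun _ => rfl, fun _ => rfl⟩
        · refine Prod.ext ?_ ?_
          · ext x
            show e (e x) = e x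
            rw [← Module.End.mul_apply, hee]
          · ext x
            show e (e x) = e x
            rw [← Module.End.mul_apply, hee]
        · intro h
          have h2 : ∀ x ∈ W, e x = 0 := fun x hx =>
            congrArg (fun f : Module.End K W => ((f ⟨x, hx⟩ : W) : V)) h
          apply hirr.1
          rw [eq_bot_iff]
          intro x hx
          rw [Submodule.mem_bot]
          refine hWW x hx ((mem_perp d).2 fun y hy => ?_)
          rw [← hm, h2 x hx, h2 y hy, map_zero, map_zero, LinearMap.zero_apply, add_zero]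
        · intro h
          have h2 : ∀ x ∈ W, e x = x := fun x hx =>
            congrArg (fun f : Module.End K W => ((f ⟨x, hx⟩ : W) : V)) h
          apply hirr.1
          rw [eq_bot_iff]
          intro x hx
          rw [Submodule.mem_bot]
          refine hWW x hx ((mem_perp d).2 fun y hy => ?_)
          have h3 := hm x y
          rw [h2 x hx, h2 y hy] at h3
          linear_combination h3
    intro Z hZ
    obtain ⟨X, hX, h1, h2⟩ := (hG _).1 hZ
    obtain ⟨Z', hZ', h3, h4⟩ := (hg' X).1 (hle hX)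
    have : Z = Z' := by
      refine Prod.ext ?_ ?_
      · ext x
        rw [h1, h3]
      · ext x
        rw [h2, h4]
    rw [this]
    exact hZ'
  · intro U hU
    obtain ⟨U', hU', hcU⟩ := d.ss (U.map M.subtype) (by
      rintro X hX _ ⟨u, hu, rfl⟩
      exact ⟨X.restrict (hM X hX) u, hU (X.restrict (hW X hX), X.restrict (hM X hX))
        ((hG _).2 ⟨X, hX, fun _ => rfl, fun _ => rfl⟩) u hu, rfl⟩)
    refine ⟨U'.comap M.subtype, ?_, ?_⟩
    · intro Z hZ u hu
      obtain ⟨X, hX, -, h2⟩ := (hG _).1 hZ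
      rw [Submodule.mem_comap, Submodule.subtype_apply, h2]
      exact hU' X hX _ hu
    · constructor
      · rw [Submodule.disjoint_def]
        intro x hx hx'
        have : (x : V) ∈ U.map M.subtype ⊓ U' := ⟨⟨x, hx, rfl⟩, hx'⟩
        rw [hcU.inf_eq_bot, Submodule.mem_bot] at this
        exact Subtype.ext this
      · rw [codisjoint_iff, eq_top_iff]
        intro x _
        have : (x : V) ∈ U.map M.subtype ⊔ U' := by rw [hcU.sup_eq_top]; trivial
        obtain ⟨_, ⟨a, ha, rfl⟩, b, hb, hab⟩ := Submodule.mem_sup.1 this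
        have hbM : b ∈ M := by
          have : b = (x : V) - a := by rw [← hab]; simp
          rw [this]
          exact M.sub_mem x.2 a.2
        refine Submodule.mem_sup.2 ⟨a, ha, ⟨b, hbM⟩, hb, Subtype.ext hab⟩
  · intro f hf
    refine hhom f fun Z hZ v w hvw => ?_
    have h1 := hf (Z.restrict (hW Z hZ), Z.restrict (hM Z hZ))
      ((hG _).2 ⟨Z, hZ, fun _ => rfl, fun _ => rfl⟩) v
    have h2 : Z (f v) = f (Z.restrict (hW Z hZ) v) := congrArg Subtype.val h1
    rw [h2]
    congr 2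
    exact Subtype.ext hvw
  · intro x y
    have := hX x y
    show ψ (X x) y + ψ x (X y) = 0
    rw [this, neg_add_cancel]

/-- `T` commutes with `g` -/
def Cm (g : Submodule K (Module.End K V)) (T : Module.End K V) : Prop := ∀ Z ∈ g, T * Z = Z * T

lemma Cm.app {T : Module.End K V} (h : Cm g T) {Z : Module.End K V} (hZ : Z ∈ g) (x : V) :
    T (Z x) = Z (T x) := by
  rw [← Module.End.mul_apply, h Z hZ, Module.End.mul_apply]

/-- Schur, one half -/
lemma Cm.inj {T : Module.End K V} (h : Cm g T) {W : Submodule K V} (hW : Stab g W)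
    (hirr : IrrW g W) {x₀ : V} (hx₀ : x₀ ∈ W) (hne : T x₀ ≠ 0) {x : V} (hx : x ∈ W)
    (h0 : T x = 0) : x = 0 := by
  have hst : Stab g (W ⊓ LinearMap.ker T) := by
    intro Z hZ y hy
    refine ⟨hW Z hZ y hy.1, ?_⟩
    have h2 : T y = 0 := LinearMap.mem_ker.1 hy.2
    show T (Z y) = 0
    rw [h.app hZ, h2, map_zero]
  rcases hirr.2 _ inf_le_left hst with h1 | h1
  · have : x ∈ W ⊓ LinearMap.ker T := ⟨hx, LinearMap.mem_ker.2 h0⟩
    rwa [h1, Submodule.mem_bot] at this
  · exfalso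
    have : x₀ ∈ W ⊓ LinearMap.ker T := by rw [h1]; exact hx₀
    exact hne (LinearMap.mem_ker.1 this.2)

lemma Cm.map {T : Module.End K V} (h : Cm g T) {W : Submodule K V} (hW : Stab g W) :
    Stab g (W.map T) := by
  rintro Z hZ _ ⟨y, hy, rfl⟩
  exact ⟨Z y, hW Z hZ y hy, h.app hZ y⟩

lemma Cm.irr {T : Module.End K V} (h : Cm g T) {W : Submodule K V} (hW : Stab g W)
    (hirr : IrrW g W) {x₀ : V} (hx₀ : x₀ ∈ W) (hne : T x₀ ≠ 0) : IrrW g (W.map T) := by
  refine ⟨fun h0 => hne ?_, fun U hU hUst => ?_⟩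
  · have : T x₀ ∈ W.map T := ⟨x₀, hx₀, rfl⟩
    rwa [h0, Submodule.mem_bot] at this
  · have hst : Stab g (W ⊓ U.comap T) := by
      intro Z hZ y hy
      refine ⟨hW Z hZ y hy.1, ?_⟩
      show T (Z y) ∈ U
      rw [h.app hZ]
      exact hUst Z hZ _ hy.2
    rcases hirr.2 _ inf_le_left hst with h1 | h1
    · left
      rw [eq_bot_iff]
      intro u hu
      obtain ⟨w, hw, rfl⟩ := hU hu
      have : w ∈ W ⊓ U.comap T := ⟨hw, hu⟩
      rw [h1, Submodule.mem_bot] at this
      rw [Submodule.mem_bot, this, map_zero]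
    · right
      refine le_antisymm hU ?_
      rintro _ ⟨w, hw, rfl⟩
      have : w ∈ W ⊓ U.comap T := by rw [h1]; exact hw
      exact this.2

/-- the common kernel of the homomorphisms to `W` -/
def ck (g : Submodule K (Module.End K V)) (W : Submodule K V) : Submodule K V where
  carrier := {x | ∀ S : Module.End K V, Cm g S → (∀ y, S y ∈ W) → S x = 0}
  zero_mem' := fun S _ _ => map_zero S
  add_mem' := by
    intro a b ha hb S h1 h2
    rw [map_add, ha S h1 h2, hb S h1 h2, add_zero]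
  smul_mem' := by
    intro t a ha S h1 h2
    rw [map_smul, ha S h1 h2, smul_zero]

lemma ck_stab (g : Submodule K (Module.End K V)) (W : Submodule K V) : Stab g (ck g W) := by
  intro Z hZ x hx S h1 h2
  rw [h1.app hZ, hx S h1 h2, map_zero]

lemma ck_hom (d : Bas ψ g) {W : Submodule K V} (hW : Stab g W) (hirr : IrrW g W)
    (f : W →ₗ[K] ck g W) (hf : ∀ Z ∈ g, ∀ v w : W, Z v = w → Z (f v) = f w) : f = 0 := by
  by_contra hne
  obtain ⟨w₀, hw₀⟩ : ∃ w, f w ≠ 0 := by
    by_contra hcon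
    push Not at hcon
    exact hne (LinearMap.ext hcon)
  -- `f` is injective
  have hker : Function.Injective (fun w : W => (f w : V)) := by
    intro a b hab
    have h1 : f (a - b) = 0 := by
      rw [map_sub]
      exact sub_eq_zero.2 (Subtype.ext hab)
    have hst : Stab g ((LinearMap.ker f).map W.subtype) := by
      rintro Z hZ _ ⟨y, hy, rfl⟩
      refine ⟨⟨Z y, hW Z hZ y y.2⟩, ?_, rfl⟩
      have h2 := hf Z hZ y ⟨Z y, hW Z hZ y y.2⟩ rfl
      have h3 : f y = 0 := LinearMap.mem_ker.1 hy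
      rw [h3] at h2
      refine LinearMap.mem_ker.2 (Subtype.ext ?_)
      rw [← h2]
      exact map_zero Z
    rcases hirr.2 _ (Submodule.map_subtype_le _ _) hst with h | h
    · have : ((a - b : W) : V) ∈ (LinearMap.ker f).map W.subtype := ⟨_, LinearMap.mem_ker.2 h1, rfl⟩
      rw [h, Submodule.mem_bot] at this
      exact sub_eq_zero.1 (Subtype.ext this)
    · exfalso
      have : (w₀ : V) ∈ (LinearMap.ker f).map W.subtype := by rw [h]; exact w₀.2
      obtain ⟨y, hy, hy'⟩ := this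
      have e : y = w₀ := Subtype.ext hy'
      rw [e] at hy
      exact hw₀ (LinearMap.mem_ker.1 hy)
  obtain ⟨F, hF⟩ : ∃ F : W →ₗ[K] V, F = (ck g W).subtype ∘ₗ f := ⟨_, rfl⟩
  have hFf : ∀ w, F w = f w := fun w => by rw [hF]; rfl
  have hFinj : Function.Injective F := by
    intro a b hab
    exact hker (by rw [hFf, hFf] at hab; exact hab)
  have hUst : Stab g (LinearMap.range F) := by
    rintro Z hZ _ ⟨y, rfl⟩
    refine ⟨⟨Z y, hW Z hZ y y.2⟩, ?_⟩
    rw [hFf, hFf, hf Z hZ y ⟨Z y, hW Z hZ y y.2⟩ rfl]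
  obtain ⟨U', hU', hc⟩ := d.ss _ hUst
  obtain ⟨E, hE⟩ : ∃ E : W ≃ₗ[K] LinearMap.range F, E = LinearEquiv.ofInjective F hFinj :=
    ⟨_, rfl⟩
  have hEF : ∀ w, (E w : V) = F w := fun w => by rw [hE]; rfl
  obtain ⟨S, hS⟩ : ∃ S : Module.End K V, S = W.subtype ∘ₗ (E.symm : LinearMap.range F →ₗ[K] W) ∘ₗ
      ((LinearMap.range F).projectionOnto U' hc) := ⟨_, rfl⟩
  have hS1 : ∀ w : W, S (F w) = w := by
    intro w
    rw [hS]
    have h1 := Submodule.projectionOnto_apply_left hc (E w)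
    rw [hEF] at h1
    simp [h1]
  have hS2 : ∀ x ∈ U', S x = 0 := by
    intro x hx
    rw [hS]
    have := (Submodule.projectionOnto_apply_eq_zero_iff hc).2 hx
    simp [this]
  have hS3 : ∀ x, S x ∈ W := by
    intro x
    rw [hS]
    exact Submodule.coe_mem _
  have hSc : Cm g S := by
    intro Z hZ
    ext x
    have hx : x ∈ LinearMap.range F ⊔ U' := by rw [hc.sup_eq_top]; trivial
    obtain ⟨_, ⟨a, rfl⟩, b, hb, rfl⟩ := Submodule.mem_sup.1 hx
    have h1 : Z (F a) = F ⟨Z a, hW Z hZ a a.2⟩ := by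
      rw [hFf, hFf, hf Z hZ a ⟨Z a, hW Z hZ a a.2⟩ rfl]
    rw [Module.End.mul_apply, Module.End.mul_apply, map_add, map_add, map_add, h1, hS1, hS1,
      hS2 b hb, hS2 _ (hU' Z hZ b hb), add_zero, add_zero]
  have h1 := (f w₀).2 S hSc hS3
  rw [← hFf, hS1] at h1
  exact hw₀ (by rw [Subtype.ext h1 (a2 := (0 : W)), map_zero])

end Pool.Agent.Helper29.PA
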