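import Pool.Agent.Helper29.PA.Blk

/-!
# Criteria for a symplectic block, and the main theorem
-/

namespace Pool.Agent.Helper29.PA

open LinearMap Pool.Agent.Helper66.OTR Pool.Agent.Helper29.MX Pool.Agent.Helper29.F5 Module.End

set_option linter.unusedSectionVars false

variable {K V : Type*} [Field K] [AddCommGroup V] [Module K V] [FiniteDimensional K V]

/-- some element of `g` acts on `W` as a square zero operator of rank one, two or odd -/
def OddUnipotent (g : Submodule K (Module.End K V)) (W : Submodule K V) : Prop :=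
  ∃ N ∈ g, (∀ x ∈ W, N (N x) = 0) ∧
    (Module.finrank K (W.map N) = 1 ∨ Module.finrank K (W.map N) = 2 ∨
      Odd (Module.finrank K (W.map N)))

/-- `γ` is a similitude of `W`, with multiplier `c`, which normalizes the action of `g` on `W` -/
def Normalizing (ψ : LinearMap.BilinForm K V) (g : Submodule K (Module.End K V))
    (W : Submodule K V) (γ : W ≃ₗ[K] W) (c : K) : Prop :=
  (∀ x y : W, ψ (γ x) (γ y) = c * ψ x y) ∧
    ∀ X ∈ g, ∃ X' ∈ g, ∀ x y : W, X x = y → X' (γ x) = γ y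

/-- odd slopes -/
def OddSlopes (ψ : LinearMap.BilinForm K V) (g : Submodule K (Module.End K V))
    (W : Submodule K V) : Prop :=
  ∃ (γ : W ≃ₗ[K] W) (c : K) (v : K → ℚ) (m : ℕ), Normalizing ψ g W γ c ∧
    (∀ x y, x ≠ 0 → y ≠ 0 → v (x * y) = v x + v y) ∧
    (∀ ν : K, HasEigenvalue (γ : W →ₗ[K] W) ν → ∃ n : ℤ, 2 * v ν - v c = n) ∧
    Module.finrank K (⨆ (ν : K) (_ : ∃ n : ℤ, Odd n ∧ 2 * v ν - v c = n),
      maxGenEigenspace (γ : W →ₗ[K] W) ν : Submodule K W) = m ∧
    m % 4 = 2 ∧ 2 * m ≠ Module.finrank K W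

/-- a simple eigenvalue without relations -/
def FreeEigenvalue (ψ : LinearMap.BilinForm K V) (g : Submodule K (Module.End K V)) (A : Type*)
    [AddCommGroup A] (W : Submodule K V) : Prop :=
  ∃ (γ : W ≃ₗ[K] W) (c : K) (v : K → A) (α δ : K), Normalizing ψ g W γ c ∧
    (∀ x y, x ≠ 0 → y ≠ 0 → v (x * y) = v x + v y) ∧
    Module.finrank K (maxGenEigenspace (γ : W →ₗ[K] W) α) = 1 ∧
    HasEigenvalue (γ : W →ₗ[K] W) δ ∧ v δ ≠ v α ∧
    ∀ β μ ν : K, HasEigenvalue (γ : W →ₗ[K] W) β → HasEigenvalue (γ : W →ₗ[K] W) μ →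
      HasEigenvalue (γ : W →ₗ[K] W) ν → v β ≠ v α → α * ν = β * μ → μ = α ∨ α * ν = c ∨
        (4 < Module.finrank K W ∧ ((α * β = c ∧ ν = α) ∨ (α * β = c ∧ α * μ = c) ∨
          (ν = α ∧ α * μ = c)))

variable {ψ : LinearMap.BilinForm K V} {g : Submodule K (Module.End K V)}

section

variable {W : Submodule K V}

lemma nd_W (d : Bas ψ g) (hWW : ∀ x ∈ W, x ∈ ψ.orthogonal W → x = 0) :
    (ψ.restrict W).Nondegenerate := by
  refine LinearMap.BilinForm.nondegenerate_restrict_of_disjoint_orthogonal ψ (isRefl d) ?_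
  rw [Submodule.disjoint_def]
  exact hWW

lemma gsp_W (d : Bas ψ g) : ∀ X ∈ res g W, ∃ c : K, ∀ x y, (ψ.restrict W) (X x) y +
    (ψ.restrict W) x (X y) = c * (ψ.restrict W) x y := by
  rintro Y ⟨Y', hY', h'⟩
  obtain ⟨m, hm⟩ := d.gsp Y' hY'
  refine ⟨m, fun x y => ?_⟩
  have := hm x y
  rw [← h', ← h'] at this
  exact this

lemma norm_W {γ : W ≃ₗ[K] W} {c : K} (h : Normalizing ψ g W γ c) :
    ∀ X ∈ res g W, (γ : W →ₗ[K] W) ∘ₗ X ∘ₗ (γ.symm : W →ₗ[K] W) ∈ res g W := by
  rintro Y ⟨X, hX, hY⟩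
  obtain ⟨X', hX', h'⟩ := h.2 X hX
  refine ⟨X', hX', fun z => ?_⟩
  have h1 := h' (γ.symm z) (Y (γ.symm z)) (hY _).symm
  rw [γ.apply_symm_apply] at h1
  exact h1.symm

theorem case_a [CharZero K] [IsAlgClosed K] (d : Bas ψ g) (hgen : GenI g) (hW : Stab g W)
    (hirr : IrrW g W) (hWW : ∀ x ∈ W, x ∈ ψ.orthogonal W → x = 0) (h : OddUnipotent g W)
    (Z : Module.End K W) (hZ : ∀ x y : W, ψ (Z x) y + ψ x (Z y) = 0) : Z ∈ res g W := by
  obtain ⟨N, hN, hNN, hr⟩ := h
  have hirr' := res_irred hW hirr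
  have hnt : Nontrivial W := hirr'.1
  have hmap : (LinearMap.range (N.restrict (hW N hN))).map W.subtype = W.map N := by
    ext x
    constructor
    · rintro ⟨_, ⟨y, rfl⟩, rfl⟩
      exact ⟨y, y.2, rfl⟩
    · rintro ⟨y, hy, rfl⟩
      exact ⟨_, ⟨⟨y, hy⟩, rfl⟩, rfl⟩
  have hfr : Module.finrank K (LinearMap.range (N.restrict (hW N hN))) =
      Module.finrank K (W.map N) := by
    rw [← hmap]
    exact LinearEquiv.finrank_eq (Submodule.equivMapOfInjective W.subtype W.injective_subtype _)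
  refine otr (ψ.restrict W) (nd_W d hWW) (fun x => d.alt x) (res g W) (res_closed d.closed W)
    (gsp_W d) hirr'.2 (N.restrict (hW N hN)) ⟨N, hN, fun _ => rfl⟩ ?_ ?_ Z hZ
  · ext x
    exact hNN x x.2
  · rw [hfr]
    rcases hr with h | h | h
    · exact Or.inl h
    · exact Or.inr (Or.inl h)
    · exact Or.inr (Or.inr ⟨h, res_gen hgen hW⟩)

theorem case_b [CharZero K] [IsAlgClosed K] (d : Bas ψ g) (hgen : GenI g) (hW : Stab g W)
    (hirr : IrrW g W) (hWW : ∀ x ∈ W, x ∈ ψ.orthogonal W → x = 0) (h : OddSlopes ψ g W)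
    (Z : Module.End K W) (hZ : ∀ x y : W, ψ (Z x) y + ψ x (Z y) = 0) : Z ∈ res g W := by
  obtain ⟨γ, c, v, m, hγ, hv, hint, hm, hmod, hne⟩ := h
  exact npc (ψ.restrict W) (nd_W d hWW) (fun x => d.alt x) (res g W) (res_closed d.closed W)
    (gsp_W d) (res_irred hW hirr).2 (res_gen hgen hW) γ c hγ.1 (norm_W hγ) v hv hint m hm hmod
    hne Z hZ

/-- Schur -/
lemma schur [IsAlgClosed K] {U : Type*} [AddCommGroup U] [Module K U] [FiniteDimensional K U]
    [Nontrivial U] {s : Submodule K (Module.End K U)}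
    (hirr : ∀ W : Submodule K U, (∀ X ∈ s, ∀ w ∈ W, X w ∈ W) → W = ⊥ ∨ W = ⊤)
    {T : Module.End K U} (hT : ∀ Z ∈ s, T * Z = Z * T) : ∃ t : K, ∀ x, T x = t • x := by
  obtain ⟨t, ht⟩ := Module.End.exists_eigenvalue T
  refine ⟨t, ?_⟩
  rcases hirr (T.eigenspace t) (fun X hX w hw => by
    rw [mem_eigenspace_iff] at hw ⊢
    rw [← Module.End.mul_apply, hT X hX, Module.End.mul_apply, hw, map_smul]) with h | h
  · exact absurd h ht
  · intro x
    have : x ∈ T.eigenspace t := by rw [h]; trivial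
    exact mem_eigenspace_iff.1 this

/-- if the commutators lie in `s`, then everything does -/
lemma comm_all [CharZero K] [IsAlgClosed K] {U : Type*} [AddCommGroup U] [Module K U] [FiniteDimensional K U]
    {φ : LinearMap.BilinForm K U} {s : Submodule K (Module.End K U)} (S : Setup φ s)
    {n : Submodule K (Module.End K U)}
    (h : ∀ X Y, Skew φ X → Skew φ Y → X * Y - Y * X ∈ n) {X : Module.End K U} (hX : Skew φ X) :
    X ∈ n := by
  have huu : ∀ u, dot φ u u ∈ n := by
    intro u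
    by_cases hu0 : u = 0
    · have e : dot φ u u = 0 := by
        rw [hu0]
        ext x
        simp [dot_apply]
      rw [e]
      exact n.zero_mem
    obtain ⟨z, hz⟩ := S.exists_ne hu0
    obtain ⟨e, he⟩ : ∃ e, φ u e = 1 := ⟨(φ u z)⁻¹ • z, by
      rw [map_smul, smul_eq_mul, inv_mul_cancel₀ hz]⟩
    have h1 := h _ _ (fun x y => S.dot_sp u e x y) (fun x y => S.dot_sp u u x y)
    have h2 : dot φ u e u = -u := by
      rw [dot_apply, S.alt, S.neg e u, he]
      module
    rw [comm_dot (S.dot_sp u e), h2] at h1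
    have e1 : dot φ (-u) u + dot φ u (-u) = (-2 : K) • dot φ u u := by
      ext x
      simp only [LinearMap.add_apply, LinearMap.smul_apply, dot_apply, map_neg,
        LinearMap.neg_apply]
      module
    rw [e1] at h1
    have h3 := n.smul_mem (-2 : K)⁻¹ h1
    rwa [smul_smul, inv_mul_cancel₀ (neg_ne_zero.2 two_ne_zero), one_smul] at h3
  refine S.sp_le (g := n) (fun u w => ?_) hX
  have h1 := n.sub_mem (n.sub_mem (huu (u + w)) (huu u)) (huu w)
  have e1 : dot φ (u + w) (u + w) - dot φ u u - dot φ w w = (2 : K) • dot φ u w := by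
    rw [dot_add, add_dot, add_dot, dot_symm φ w u]
    module
  rw [e1] at h1
  have h3 := n.smul_mem (2 : K)⁻¹ h1
  rwa [smul_smul, inv_mul_cancel₀ two_ne_zero, one_smul] at h3

theorem case_c [CharZero K] [IsAlgClosed K] (d : Bas ψ g) {A : Type*} [AddCommGroup A]
    (hW : Stab g W) (hirr : IrrW g W) (hWW : ∀ x ∈ W, x ∈ ψ.orthogonal W → x = 0)
    (h : FreeEigenvalue ψ g A W)
    (Z : Module.End K W) (hZ : ∀ x y : W, ψ (Z x) y + ψ x (Z y) = 0) : Z ∈ res g W := by
  obtain ⟨γ, c, v, α, δ, hγ, hv, hα, hδ, hne, hrel⟩ := h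
  have hirr' := res_irred hW hirr
  have hnt : Nontrivial W := hirr'.1
  have hnd := nd_W d hWW
  have hcl := res_closed d.closed W
  have S := spart_setup hnd (fun x => d.alt x) hcl (gsp_W d) hirr'
  have d' : Bas (ψ.restrict W) (res g W) :=
    { nd := hnd
      alt := fun x => d.alt x
      closed := hcl
      gsp := gsp_W d
      ss := by
        intro U hU
        rcases hirr'.2 U hU with h | h
        · exact ⟨⊤, fun _ _ _ _ => trivial, by rw [h]; exact isCompl_bot_top⟩
        · refine ⟨⊥, fun X _ x hx => ?_, by rw [h]; exact isCompl_top_bot⟩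
          rw [Submodule.mem_bot] at hx ⊢
          rw [hx, map_zero] }
  have hev : ∀ β : K, EvOn γ (⊤ : Submodule K W) β ↔ HasEigenvalue (γ : W →ₗ[K] W) β := by
    intro β
    constructor
    · rintro ⟨x, -, hx0, hx⟩
      exact hasEigenvalue_of_hasEigenvector ⟨mem_eigenspace_iff.2 hx, hx0⟩
    · intro hβ
      obtain ⟨x, hx⟩ := hβ.exists_hasEigenvector
      exact ⟨x, trivial, hx.2, hx.apply_eq_smul⟩
  have hα' : EvOn γ (⊤ : Submodule K W) α := by
    rw [hev]
    obtain ⟨⟨l, hl⟩, hl0, -⟩ := finrank_eq_one_iff'.1 hα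
    exact hasEigenvalue_of_ge hl (fun h => hl0 (Subtype.ext h))
  have htop : (ψ.restrict W).orthogonal ⊤ = ⊥ := by
    rw [eq_bot_iff]
    intro x hx
    rw [Submodule.mem_bot]
    exact nd_eq d' fun y => (mem_perp d').1 hx y trivial
  refine comm_all S (n := res g W) ?_ (X := Z) (fun x y => eq_neg_of_add_eq_zero_left (hZ x y))
  intro X Y hX hY
  have hcommT : ∀ X : Module.End K W, ∀ T : Module.End K W, (∀ Y ∈ res g W, T * Y = Y * T) →
      X * T = T * X := by
    intro X T hT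
    obtain ⟨t, ht⟩ := schur hirr'.2 hT
    ext x
    rw [Module.End.mul_apply, Module.End.mul_apply, ht, ht, map_smul]
  have h0 : ∀ X : Module.End K W, ∀ x ∈ (ψ.restrict W).orthogonal ⊤, X x = 0 := by
    intro X x hx
    rw [htop, Submodule.mem_bot] at hx
    rw [hx, map_zero]
  refine general (A := A) d' (B := ⊤) (fun _ _ _ _ => trivial) (fun x _ hx => ?_) ?_ hX hY
    (h0 X) (h0 Y) (hcommT X) (hcommT Y)
  · rw [htop, Submodule.mem_bot] at hx
    exact hx
  · intro W₁ _ hW₁ hi h2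
    have hW₁top : W₁ = ⊤ := (hirr'.2 W₁ hW₁).resolve_left hi.1
    subst hW₁top
    refine ⟨γ, c, v, α, δ, hγ.1, norm_W hγ, ?_, hv, hα, hα', (hev δ).2 hδ, hne, ?_⟩
    · intro T hT x
      obtain ⟨t, ht⟩ := schur hirr'.2 hT
      rw [ht, ht, map_smul]
    · intro U hU hUi β μ ν h1 h2 h3 h4 h5
      have hUtop : U = ⊤ := (hirr'.2 U hU).resolve_left hUi.1
      subst hUtop
      have := hrel β μ ν ((hev β).1 h1) ((hev μ).1 h2) ((hev ν).1 h3) h4 h5
      rwa [finrank_top]

end

/-- `g` induces every infinitesimal isometry of `W` -/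
def Full (ψ : LinearMap.BilinForm K V) (g : Submodule K (Module.End K V))
    (W : Submodule K V) : Prop :=
  ∀ Z : Module.End K W, (∀ x y : W, ψ (Z x) y + ψ x (Z y) = 0) →
    ∃ Y ∈ g, ∀ x : W, (Z x : V) = Y x

/-- **Main theorem.** -/
theorem par [CharZero K] [IsAlgClosed K] (d : Bas ψ g) (hgen : GenI g) {A : Type*}
    [AddCommGroup A] :
    ∀ n : ℕ, ∀ X : Module.End K V, ∀ U : Submodule K V, Stab g U → (∀ x ∈ U, X x = 0) →
      Module.finrank K V ≤ Module.finrank K U + n → Skew ψ X →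
      (∀ T : Module.End K V, (∀ Y ∈ g, T * Y = Y * T) → X * T = T * X) →
      (∀ W : Submodule K V, Stab g W → IrrW g W → (∃ x ∈ W, X x ≠ 0) →
        ∃ T : Module.End K V, (∀ Y ∈ g, T * Y = Y * T) ∧ (∃ x ∈ W, ∃ y ∈ W, ψ (T x) (T y) ≠ 0) ∧
        (Full ψ g (W.map T) ∨ OddUnipotent g (W.map T) ∨ OddSlopes ψ g (W.map T) ∨
          FreeEigenvalue ψ g A (W.map T))) → X ∈ g := by
  intro n
  induction n with
  | zero =>
    intro X U hU hXU hn _ _ _
    have hUtop : U = ⊤ := by
      refine Submodule.eq_top_of_finrank_eq (le_antisymm (Submodule.finrank_le U) ?_)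
      simpa using hn
    have : X = 0 := by
      ext x
      exact hXU x (by rw [hUtop]; trivial)
    rw [this]
    exact g.zero_mem
  | succ n ih =>
    intro X U hU hXU hn hX hXT H
    by_cases hX0 : X = 0
    · rw [hX0]
      exact g.zero_mem
    -- an irreducible subspace on which `X` does not vanish
    obtain ⟨W, hW, hirr, x₀, hx₀, hXx₀⟩ : ∃ W : Submodule K V, Stab g W ∧ IrrW g W ∧
        ∃ x ∈ W, X x ≠ 0 := by
      by_contra hcon
      push Not at hcon
      apply hX0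
      ext x
      refine irr_ind d (p := fun x => X x = 0) (map_zero X) ?_ hcon x
      intro a b h1 h2
      rw [map_add, h1, h2, add_zero]
    obtain ⟨T, hT, ⟨a, ha, b, hb, hab⟩, hcrit⟩ := H W hW hirr ⟨x₀, hx₀, hXx₀⟩
    have hT' : Cm g T := hT
    have hTa : T a ≠ 0 := by
      intro h
      rw [h, map_zero, LinearMap.zero_apply] at hab
      exact hab rfl
    obtain ⟨W₁, hW₁d⟩ : ∃ W₁, W₁ = W.map T := ⟨_, rfl⟩
    rw [← hW₁d] at hcrit
    have hW₁ : Stab g W₁ := by rw [hW₁d]; exact hT'.map hW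
    have hirr₁ : IrrW g W₁ := by rw [hW₁d]; exact hT'.irr hW hirr ha hTa
    have hmem₁ : ∀ x ∈ W, T x ∈ W₁ := fun x hx => by rw [hW₁d]; exact ⟨x, hx, rfl⟩
    have hXT' : ∀ x, X (T x) = T (X x) := by
      intro x
      rw [← Module.End.mul_apply, hXT T hT, Module.End.mul_apply]
    have hXst : ∀ U : Submodule K V, Stab g U → ∀ x ∈ U, X x ∈ U := fun U hU =>
      comm_stab d hXT hU
    have hWW : ∀ x ∈ W₁, x ∈ ψ.orthogonal W₁ → x = 0 := by
      rcases hirr₁.2 _ inf_le_left (stab_inf hW₁ (stab_perp d hW₁)) with h0 | h0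
      · intro x h1 h2
        have : x ∈ W₁ ⊓ ψ.orthogonal W₁ := ⟨h1, h2⟩
        rwa [h0, Submodule.mem_bot] at this
      · exfalso
        have h1 : T a ∈ ψ.orthogonal W₁ := (inf_eq_left.1 h0) (hmem₁ a ha)
        exact hab ((mem_perp d).1 h1 _ (hmem₁ b hb))
    have hall : ∀ Z : Module.End K W₁, (∀ x y : W₁, ψ (Z x) y + ψ x (Z y) = 0) →
        Z ∈ res g W₁ := by
      rcases hcrit with h | h | h | h
      · intro Z hZ
        obtain ⟨Y, hY, hYZ⟩ := h Z hZ
        exact ⟨Y, hY, hYZ⟩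
      · exact case_a d hgen hW₁ hirr₁ hWW h
      · exact case_b d hgen hW₁ hirr₁ hWW h
      · exact case_c d hW₁ hirr₁ hWW h
    obtain ⟨Z, hZ, hZ1, hZ2⟩ := split d hgen hW₁ hirr₁ hWW hall (ck_stab g W₁)
      (ck_hom d hW₁ hirr₁) hX (hXst W₁ hW₁)
    -- stable subspaces on which `X` vanishes lie in the common kernel
    have hck : ∀ U : Submodule K V, Stab g U → (∀ x ∈ U, X x = 0) → ∀ x ∈ U, Z x = 0 := by
      intro U hU hXU x hx
      refine hZ2 x fun S hS hSW => ?_
      by_contra hSx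
      have hst : Stab g (U.map S) := hS.map hU
      have hle : U.map S ≤ W₁ := by
        rintro _ ⟨y, -, rfl⟩
        exact hSW y
      rcases hirr₁.2 _ hle hst with h | h
      · have : S x ∈ U.map S := ⟨x, hx, rfl⟩
        rw [h, Submodule.mem_bot] at this
        exact hSx this
      · have h1 : T x₀ ∈ U.map S := by rw [h]; exact hmem₁ x₀ hx₀
        obtain ⟨y, hy, hy'⟩ := h1
        have h2 : X (T x₀) = 0 := by
          rw [← hy', ← Module.End.mul_apply, hXT S hS, Module.End.mul_apply, hXU y hy, map_zero]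
        rw [hXT'] at h2
        exact hXx₀ (hT'.inj hW hirr ha hTa (hXst W hW x₀ hx₀) h2)
    -- `X - Z`
    have hZT : ∀ T : Module.End K V, (∀ Y ∈ g, T * Y = Y * T) → Z * T = T * Z := fun T h =>
      (h Z hZ).symm
    have hZW : ∀ x ∈ W, (X - Z) x = 0 := by
      intro x hx
      have h1 : T ((X - Z) x) = 0 := by
        rw [LinearMap.sub_apply, map_sub, hT'.app hZ, hZ1 _ (hmem₁ x hx), hXT', sub_self]
      exact hT'.inj hW hirr ha hTa (W.sub_mem (hXst W hW x hx) (hW Z hZ x hx)) h1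
    have hskew : Skew ψ Z := by
      obtain ⟨l, hl⟩ := d.gsp Z hZ
      have h1 := hl (T a) (T b)
      rw [hZ1 _ (hmem₁ a ha), hZ1 _ (hmem₁ b hb), hX (T a) (T b), neg_add_cancel] at h1
      have hl0 : l = 0 := (mul_eq_zero.1 h1.symm).resolve_right hab
      intro x y
      have h2 := hl x y
      rw [hl0, zero_mul] at h2
      exact eq_neg_of_add_eq_zero_left h2
    have hfin : X - Z ∈ g := by
      refine ih (X - Z) (U ⊔ W) (stab_sup hU hW) ?_ ?_ ?_ ?_ ?_
      · intro x hx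
        obtain ⟨p, hp, q, hq, rfl⟩ := Submodule.mem_sup.1 hx
        rw [map_add, hZW q hq, LinearMap.sub_apply, hXU p hp, hck U hU hXU p hp, sub_zero,
          add_zero]
      · have hlt : U < U ⊔ W := by
          refine lt_of_le_of_ne le_sup_left fun h => hXx₀ ?_
          refine hXU x₀ ?_
          rw [h]
          exact Submodule.mem_sup_right hx₀
        have := Submodule.finrank_lt_finrank_of_lt hlt
        omega
      · intro x y
        rw [LinearMap.sub_apply, LinearMap.sub_apply, map_sub, map_sub, LinearMap.sub_apply, hX x y,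
          hskew x y]
        ring
      · intro T h
        rw [sub_mul, mul_sub, hXT T h, hZT T h]
      · intro W₂ hW₂ hirr₂ hne
        refine H W₂ hW₂ hirr₂ ?_
        by_contra hcon
        push Not at hcon
        obtain ⟨x, hx, hxne⟩ := hne
        apply hxne
        rw [LinearMap.sub_apply, hcon x hx, hck W₂ hW₂ hcon x hx, sub_zero]
    have := g.add_mem hfin hZ
    rwa [sub_add_cancel] at this

end Pool.Agent.Helper29.PA
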