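import Pool.Agent.Helper66.OTR.Gsp
import Pool.Agent.Helper98.NP.Slope
import Pool.Agent.Helper75.SS.Main

/-!
# The three ingredients: unipotents of odd rank, Newton polygons, splitting

These are the theorems `OddToricRank` (helper66), `NewtonPolygon` (helper98) and
`SymplecticSplitting` (helper75).
-/

namespace Pool.Agent.Helper29.PA

section

open Pool.Agent.Helper66.OTR

/-- unipotents of odd rank (helper66) -/
theorem otr {K V : Type*} [Field K] [IsAlgClosed K] [CharZero K] [AddCommGroup V] [Module K V]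
    [FiniteDimensional K V] [Nontrivial V]
    (ψ : LinearMap.BilinForm K V) (hnd : ψ.Nondegenerate) (halt : ∀ x, ψ x x = 0)
    (g : Submodule K (Module.End K V))
    (hLie : ∀ X ∈ g, ∀ Y ∈ g, X * Y - Y * X ∈ g)
    (hgsp : ∀ X ∈ g, ∃ c : K, ∀ x y, ψ (X x) y + ψ x (X y) = c * ψ x y)
    (hirr : ∀ W : Submodule K V, (∀ X ∈ g, ∀ w ∈ W, X w ∈ W) → W = ⊥ ∨ W = ⊤)
    (N : Module.End K V) (hN : N ∈ g) (hNN : N * N = 0)
    (hrank : Module.finrank K (LinearMap.range N) = 1 ∨ Module.finrank K (LinearMap.range N) = 2 ∨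
      (Odd (Module.finrank K (LinearMap.range N)) ∧
        ∀ g' : Submodule K (Module.End K V), (∀ X ∈ g', ∀ Y ∈ g', X * Y - Y * X ∈ g') →
          (∀ e ∈ g, e * e = e → e ∈ g') → g ≤ g')) :
    ∀ X : Module.End K V, (∀ x y, ψ (X x) y + ψ x (X y) = 0) → X ∈ g := by
  have S : Setup ψ (spart ψ g) := spart_setup hnd halt hLie hgsp ⟨inferInstance, hirr⟩
  have hNs : N ∈ spart ψ g := nilp_mem hnd hgsp hN hNN
  intro X hX
  refine sp_le_of_spart hnd halt hLie S ?_ (fun x y => eq_neg_of_add_eq_zero_left (hX x y))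
  intro Y hY
  rcases hrank with h1 | h2 | ⟨hodd, hgen⟩
  · exact S.rank_one hNs h1 hY
  · exact S.rank_two hNs hNN h2 hY
  · exact S.main_odd (spart_gen hnd hgsp hgen) hNs hNN hodd hY

end

section

open Pool.Agent.Helper66.OTR Pool.Agent.Helper98.NP

/-- Newton polygons (helper98) -/
theorem npc {K V : Type*} [Field K] [IsAlgClosed K] [CharZero K] [AddCommGroup V] [Module K V]
    [FiniteDimensional K V]
    (ψ : LinearMap.BilinForm K V) (hnd : ψ.Nondegenerate) (halt : ∀ x, ψ x x = 0)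
    (g : Submodule K (Module.End K V))
    (hLie : ∀ X ∈ g, ∀ Y ∈ g, X * Y - Y * X ∈ g)
    (hgsp : ∀ X ∈ g, ∃ t : K, ∀ x y, ψ (X x) y + ψ x (X y) = t * ψ x y)
    (hirr : ∀ W : Submodule K V, (∀ X ∈ g, ∀ w ∈ W, X w ∈ W) → W = ⊥ ∨ W = ⊤)
    (hgen : ∀ g' : Submodule K (Module.End K V), (∀ X ∈ g', ∀ Y ∈ g', X * Y - Y * X ∈ g') →
      (∀ e ∈ g, e * e = e → e ∈ g') → g ≤ g')
    (γ : V ≃ₗ[K] V) (c : K) (hsim : ∀ x y, ψ (γ x) (γ y) = c * ψ x y)
    (hnorm : ∀ X ∈ g, (γ : V →ₗ[K] V) ∘ₗ X ∘ₗ (γ.symm : V →ₗ[K] V) ∈ g)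
    (v : K → ℚ) (hv : ∀ a b : K, a ≠ 0 → b ≠ 0 → v (a * b) = v a + v b)
    (hint : ∀ ν : K, Module.End.HasEigenvalue (γ : V →ₗ[K] V) ν → ∃ n : ℤ, 2 * v ν - v c = n)
    (m : ℕ) (hm : Module.finrank K (⨆ (ν : K) (_ : ∃ n : ℤ, Odd n ∧ 2 * v ν - v c = n),
      Module.End.maxGenEigenspace (γ : V →ₗ[K] V) ν : Submodule K V) = m)
    (hmod : m % 4 = 2) (hne : 2 * m ≠ Module.finrank K V) :
    ∀ X : Module.End K V, (∀ x y, ψ (X x) y + ψ x (X y) = 0) → X ∈ g := by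
  have hnt : Nontrivial V := by
    by_contra h
    rw [not_nontrivial_iff_subsingleton] at h
    have h1 : m = 0 := by rw [← hm]; exact Module.finrank_zero_of_subsingleton
    rw [h1] at hmod
    norm_num at hmod
  have S : Setup ψ (spart ψ g) := spart_setup hnd halt hLie hgsp ⟨hnt, hirr⟩
  have hs : ∀ X ∈ spart ψ g, cj γ X ∈ spart ψ g := spart_norm hsim hnorm
  subst hm
  intro X hX
  refine sp_le_of_spart hnd halt hLie S ?_ (fun x y => eq_neg_of_add_eq_zero_left (hX x y))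
  intro Y hY
  exact slope_sp S (spart_gen hnd hgsp hgen) hsim hs hv hint hmod hne hY

end

section

open Pool.Agent.Helper75.SS

/-- splitting (helper75) -/
theorem spl {K V₁ V₂ : Type*} [Field K] [IsAlgClosed K] [CharZero K]
    [AddCommGroup V₁] [Module K V₁] [FiniteDimensional K V₁]
    [AddCommGroup V₂] [Module K V₂] [FiniteDimensional K V₂]
    (ψ : LinearMap.BilinForm K V₁) (hnd : ψ.Nondegenerate) (halt : ∀ x, ψ x x = 0)
    (g : Submodule K (Module.End K V₁ × Module.End K V₂))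
    (hLie : ∀ X ∈ g, ∀ Y ∈ g, X * Y - Y * X ∈ g)
    (hgsp : ∀ X ∈ g, ∃ c : K, ∀ x y, ψ (X.1 x) y + ψ x (X.1 y) = c * ψ x y)
    (hsp : ∀ Z : Module.End K V₁, (∀ x y, ψ (Z x) y + ψ x (Z y) = 0) → ∃ X ∈ g, X.1 = Z)
    (hgen : ∀ g' : Submodule K (Module.End K V₁ × Module.End K V₂),
      (∀ X ∈ g', ∀ Y ∈ g', X * Y - Y * X ∈ g') →
      (∀ e ∈ g, e * e = e → e.1 ≠ 0 → e.1 ≠ 1 → e ∈ g') → g ≤ g')
    (hss : ∀ U : Submodule K V₂, (∀ X ∈ g, ∀ u ∈ U, X.2 u ∈ U) →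
      ∃ U' : Submodule K V₂, (∀ X ∈ g, ∀ u ∈ U', X.2 u ∈ U') ∧ IsCompl U U')
    (hhom : ∀ f : V₁ →ₗ[K] V₂, (∀ X ∈ g, ∀ v, X.2 (f v) = f (X.1 v)) → f = 0) :
    ∀ Z : Module.End K V₁, (∀ x y, ψ (Z x) y + ψ x (Z y) = 0) →
      (Z, (0 : Module.End K V₂)) ∈ g := by
  have H : Hyp ψ g :=
    { nd := hnd
      alt := halt
      closed := hLie
      gsp := hgsp
      sur := fun Z hZ => hsp Z (fun x y => by rw [hZ x y, neg_add_cancel])
      gen := hgen
      ss := hss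
      hom := hhom }
  intro Z hZ
  exact H.splitting (fun x y => eq_neg_of_add_eq_zero_left (hZ x y))

end

end Pool.Agent.Helper29.PA
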